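import Mathlib
import Pool.Agent.Q209.PsGap.Lazy

open Finset Matrix

namespace Pool.Agent.Results.MP_67c61c_pr.LazyPseudoGap

noncomputable section

/-- `M` is row-stochastic. -/
def IsStochastic {d : ℕ} (M : Matrix (Fin d) (Fin d) ℝ) : Prop :=
  (∀ i j, 0 ≤ M i j) ∧ ∀ i, ∑ j, M i j = 1

/-- `M` is an ergodic (irreducible and aperiodic) row-stochastic matrix: some power has only
positive entries. -/
def IsErgodic {d : ℕ} (M : Matrix (Fin d) (Fin d) ℝ) : Prop :=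
  IsStochastic M ∧ ∃ k : ℕ, ∀ i j, 0 < (M ^ k) i j

/-- `p` is a stationary distribution of `M`. -/
def IsStationary {d : ℕ} (p : Fin d → ℝ) (M : Matrix (Fin d) (Fin d) ℝ) : Prop :=
  (∀ i, 0 ≤ p i) ∧ ∑ i, p i = 1 ∧ ∀ j, ∑ i, p i * M i j = p j

/-- Time reversal `M^*(i,j) = p(j) M(j,i) / p(i)`. -/
def timeRev {d : ℕ} (p : Fin d → ℝ) (M : Matrix (Fin d) (Fin d) ℝ) :
    Matrix (Fin d) (Fin d) ℝ :=
  fun i j => p j * M j i / p i

/-- The multiplicative reversiblization `M^† = M^* M`. -/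
def mulRev {d : ℕ} (p : Fin d → ℝ) (M : Matrix (Fin d) (Fin d) ℝ) :
    Matrix (Fin d) (Fin d) ℝ :=
  timeRev p M * M

/-- The second largest eigenvalue: the second entry of the decreasingly sorted list of the real
roots of the characteristic polynomial, counted with multiplicity. -/
def lam2 {d : ℕ} (A : Matrix (Fin d) (Fin d) ℝ) : ℝ := (A.charpoly.roots.sort (· ≥ ·)).getD 1 0

/-- The spectral gap `γ(A) = 1 - λ₂(A)`. -/
def gap {d : ℕ} (A : Matrix (Fin d) (Fin d) ℝ) : ℝ := 1 - lam2 A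

/-- The pseudo spectral gap `γ_ps(M) = sup_{k ≥ 1} γ((M^k)^†) / k`. -/
def psGap {d : ℕ} (p : Fin d → ℝ) (M : Matrix (Fin d) (Fin d) ℝ) : ℝ :=
  ⨆ k : ℕ, gap (mulRev p (M ^ (k + 1))) / ((k : ℝ) + 1)

/-- The `α`-lazy version `α I + (1 - α) M`. -/
def lazy {d : ℕ} (α : ℝ) (M : Matrix (Fin d) (Fin d) ℝ) : Matrix (Fin d) (Fin d) ℝ :=
  α • (1 : Matrix (Fin d) (Fin d) ℝ) + (1 - α) • M

theorem stat_pos {d : ℕ} (hd : 2 ≤ d) {M : Matrix (Fin d) (Fin d) ℝ} {p : Fin d → ℝ}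
    (hM : IsErgodic M) (hp : IsStationary p M) :
    (∀ i, 0 < p i) ∧ ∃ k : ℕ, ∀ i j, 0 < (M ^ (k + 1)) i j := by
  obtain ⟨⟨h0, h1⟩, k, hk⟩ := hM
  obtain ⟨hp0, hp1, hs⟩ := hp
  have hpos : ∀ i, 0 < p i := by
    intro i
    have h3 := (Q209.PsGap.stoch_pow h0 h1 hs k).2.2 i
    rw [← h3]
    obtain ⟨j, hj⟩ : ∃ j, 0 < p j := by
      by_contra hcon
      push Not at hcon
      have : ∑ i, p i ≤ 0 := Finset.sum_nonpos fun i _ => hcon i
      linarith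
    exact Finset.sum_pos' (fun l _ => mul_nonneg (hp0 l) (hk l i).le)
      ⟨j, Finset.mem_univ _, mul_pos hj (hk j i)⟩
  refine ⟨hpos, ?_⟩
  rcases Nat.eq_zero_or_pos k with hk0 | hk0
  · exfalso
    subst hk0
    have := hk ⟨0, by omega⟩ ⟨1, by omega⟩
    rw [pow_zero, Matrix.one_apply_ne (by simp)] at this
    exact lt_irrefl _ this
  · exact ⟨k - 1, by rwa [Nat.sub_add_cancel hk0]⟩

theorem gap_mem {d : ℕ} (hd : 2 ≤ d) {M : Matrix (Fin d) (Fin d) ℝ} {p : Fin d → ℝ}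
    (h0 : ∀ i j, 0 ≤ M i j) (h1 : ∀ i, ∑ j, M i j = 1) (hs : ∀ j, ∑ i, p i * M i j = p j)
    (hp : ∀ i, 0 < p i) : 0 ≤ gap (mulRev p M) ∧ gap (mulRev p M) ≤ 1 := by
  have h2 : 1 < Fintype.card (Fin d) := by rw [Fintype.card_fin]; omega
  have h3 : lam2 (mulRev p M) ≤ 1 := Q209.PsGap.lam2_le_of hp h2 M 1 fun f _ => by
    rw [one_mul]; exact Q209.PsGap.nsq_mul_le hp h0 h1 hs f
  have h4 : 0 ≤ lam2 (mulRev p M) := Q209.PsGap.lam2_nonneg' hp h2 M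
  constructor <;> rw [gap] <;> linarith

theorem bdd {d : ℕ} (hd : 2 ≤ d) {M : Matrix (Fin d) (Fin d) ℝ} {p : Fin d → ℝ}
    (h0 : ∀ i j, 0 ≤ M i j) (h1 : ∀ i, ∑ j, M i j = 1) (hs : ∀ j, ∑ i, p i * M i j = p j)
    (hp : ∀ i, 0 < p i) :
    (∀ k : ℕ, 0 ≤ gap (mulRev p (M ^ (k + 1))) / ((k : ℝ) + 1)) ∧
    (∀ k : ℕ, gap (mulRev p (M ^ (k + 1))) / ((k : ℝ) + 1) ≤ 1) ∧
    BddAbove (Set.range fun k : ℕ => gap (mulRev p (M ^ (k + 1))) / ((k : ℝ) + 1)) := by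
  have hk : ∀ k : ℕ, 0 ≤ gap (mulRev p (M ^ (k + 1))) ∧ gap (mulRev p (M ^ (k + 1))) ≤ 1 := by
    intro k
    obtain ⟨a, b, c⟩ := Q209.PsGap.stoch_pow h0 h1 hs (k + 1)
    exact gap_mem hd a b c hp
  have hle : ∀ k : ℕ, gap (mulRev p (M ^ (k + 1))) / ((k : ℝ) + 1) ≤ 1 := by
    intro k
    have hk0 : (0 : ℝ) ≤ k := Nat.cast_nonneg k
    rw [div_le_one (by positivity)]
    linarith [(hk k).2]
  refine ⟨fun k => div_nonneg (hk k).1 (by positivity), hle, 1, ?_⟩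
  rintro _ ⟨k, rfl⟩
  exact hle k

theorem lazy_stoch {d : ℕ} {M : Matrix (Fin d) (Fin d) ℝ} {p : Fin d → ℝ} {α : ℝ}
    (hα0 : 0 < α) (hα1 : α < 1) (h0 : ∀ i j, 0 ≤ M i j) (h1 : ∀ i, ∑ j, M i j = 1)
    (hs : ∀ j, ∑ i, p i * M i j = p j) :
    (∀ i j, 0 ≤ lazy α M i j) ∧ (∀ i, ∑ j, lazy α M i j = 1) ∧
      ∀ j, ∑ i, p i * lazy α M i j = p j := by
  refine ⟨fun i j => ?_, fun i => ?_, fun j => ?_⟩
  · simp only [lazy, Matrix.add_apply, Matrix.smul_apply, smul_eq_mul, Matrix.one_apply]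
    have := mul_nonneg (show 0 ≤ 1 - α by linarith) (h0 i j)
    split_ifs <;> linarith
  · simp only [lazy, Matrix.add_apply, Matrix.smul_apply, smul_eq_mul, Matrix.one_apply,
      Finset.sum_add_distrib, ← Finset.mul_sum, h1]
    simp
  · simp only [lazy, Matrix.add_apply, Matrix.smul_apply, smul_eq_mul, Matrix.one_apply,
      mul_add, Finset.sum_add_distrib]
    have e : ∑ i, p i * ((1 - α) * M i j) = (1 - α) * ∑ i, p i * M i j := by
      rw [Finset.mul_sum]; exact Finset.sum_congr rfl fun i _ => by ring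
    rw [e, hs]
    simp
    ring

/-- There is `f : (0,1) × (0,1] → (0,∞)`, namely `f(α,g) = α(1-α)g²/4`, such that for every
`d ≥ 2`, every ergodic `d × d` row-stochastic matrix `M` with stationary distribution `p` and every
`α ∈ (0,1)` one has `γ_ps(M) ∈ (0,1]` and `γ_ps(L_α(M)) ≥ f(α, γ_ps(M))`. -/
theorem result :
    ∃ f : ℝ → ℝ → ℝ, (f = fun α g => α * (1 - α) * g ^ 2 / 4) ∧
      (∀ α g : ℝ, 0 < α → α < 1 → 0 < g → g ≤ 1 → 0 < f α g) ∧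
      ∀ (d : ℕ), 2 ≤ d → ∀ (M : Matrix (Fin d) (Fin d) ℝ) (p : Fin d → ℝ),
        IsErgodic M → IsStationary p M →
        (0 < psGap p M ∧ psGap p M ≤ 1) ∧
        ∀ α : ℝ, 0 < α → α < 1 → f α (psGap p M) ≤ psGap p (lazy α M) := by
  refine ⟨fun α g => α * (1 - α) * g ^ 2 / 4, rfl, ?_, ?_⟩
  · intro α g h1 h2 h3 _
    have : 0 < 1 - α := by linarith
    positivity
  intro d hd M p hM hp
  obtain ⟨hpos, m, hm⟩ := stat_pos hd hM hp
  obtain ⟨⟨h0, h1⟩, _⟩ := hM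
  obtain ⟨_, hp1, hs⟩ := hp
  have h2 : 1 < Fintype.card (Fin d) := by rw [Fintype.card_fin]; omega
  obtain ⟨b0, b1, bB⟩ := bdd hd h0 h1 hs hpos
  have hps0 : 0 < psGap p M := by
    obtain ⟨a, b, c⟩ := Q209.PsGap.stoch_pow h0 h1 hs (m + 1)
    have h3 : lam2 (mulRev p (M ^ (m + 1))) < 1 :=
      Q209.PsGap.gap_pos hpos hp1 h2 hm b c
    have h4 : 0 < gap (mulRev p (M ^ (m + 1))) / ((m : ℝ) + 1) :=
      div_pos (by rw [gap]; linarith) (by positivity)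
    exact lt_of_lt_of_le h4 (le_ciSup bB m)
  refine ⟨⟨hps0, ciSup_le b1⟩, fun α hα0 hα1 => ?_⟩
  obtain ⟨l0, l1, ls⟩ := lazy_stoch hα0 hα1 h0 h1 hs
  obtain ⟨_, _, lB⟩ := bdd hd l0 l1 ls hpos
  set G := gap (mulRev p (lazy α M)) with hG
  have hGle : G ≤ psGap p (lazy α M) := by
    have h3 := le_ciSup lB 0
    simp only [zero_add, pow_one, Nat.cast_zero, div_one] at h3
    exact h3
  have hα : 0 < α * (1 - α) := mul_pos hα0 (by linarith)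
  have hk : ∀ k : ℕ, α * (1 - α) * (gap (mulRev p (M ^ (k + 1))) / ((k : ℝ) + 1)) ^ 2 / 4 ≤ G := by
    intro k
    refine Q209.PsGap.lazy_gap hpos h2 h0 h1 hs α hα0.le hα1.le (k + 1) (Nat.succ_pos k) _ (b0 k) ?_
    have : ((k : ℝ) + 1) ≠ 0 := by positivity
    push_cast
    field_simp
    rfl
  have hG0 : 0 ≤ G := le_trans (by have := b0 0; positivity) (hk 0)
  set R := √(4 * G / (α * (1 - α))) with hR
  have hR2 : R ^ 2 = 4 * G / (α * (1 - α)) := Real.sq_sqrt (by positivity)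
  have hle : psGap p M ≤ R := by
    apply ciSup_le
    intro k
    apply le_of_sq_le_sq _ (Real.sqrt_nonneg _)
    rw [← hR, hR2, le_div_iff₀ hα]
    have := hk k
    linarith
  have hsq : psGap p M ^ 2 ≤ R ^ 2 := pow_le_pow_left₀ hps0.le hle 2
  rw [hR2, le_div_iff₀ hα] at hsq
  show α * (1 - α) * psGap p M ^ 2 / 4 ≤ psGap p (lazy α M)
  linarith

end

end Pool.Agent.Results.MP_67c61c_pr.LazyPseudoGap
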